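import Pool.Agent.Helper17.Sign.Core

namespace Pool.Agent.Results.MP_56c18a_ag.Domination

open Polynomial Module Pool.Agent.Helper17.Sign

universe u

/-- A finite dimensional super vector space: the cohomology of a variety, with its even part `Ev`
and its odd part `Od`. -/
structure Super (F : Type u) [Field F] where
  /-- even part -/
  Ev : Type u
  /-- odd part -/
  Od : Type u
  [evGroup : AddCommGroup Ev]
  [evModule : Module F Ev]
  [evFin : FiniteDimensional F Ev]
  [odGroup : AddCommGroup Od]
  [odModule : Module F Od]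
  [odFin : FiniteDimensional F Od]

attribute [instance] Super.evGroup Super.evModule Super.evFin Super.odGroup Super.odModule
  Super.odFin

variable {F : Type u} [Field F]

/-- The linear maps preserving parity, as pairs (map on even parts, map on odd parts). -/
def Hom (V W : Super F) : Type _ := (V.Ev →ₗ[F] W.Ev) × (V.Od →ₗ[F] W.Od)

instance (V W : Super F) : AddCommGroup (Hom V W) :=
  inferInstanceAs (AddCommGroup ((V.Ev →ₗ[F] W.Ev) × (V.Od →ₗ[F] W.Od)))

instance (V W : Super F) : Module F (Hom V W) :=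
  inferInstanceAs (Module F ((V.Ev →ₗ[F] W.Ev) × (V.Od →ₗ[F] W.Od)))

/-- the identity -/
def Hom.id (V : Super F) : Hom V V := (LinearMap.id, LinearMap.id)

/-- the even projector: identity on the even part, zero on the odd part -/
def Hom.evenProj (V : Super F) : Hom V V := (LinearMap.id, 0)

/-- composition (first `f`, then `g`) -/
def Hom.comp {U V W : Super F} (g : Hom V W) (f : Hom U V) : Hom U W :=
  (g.1 ∘ₗ f.1, g.2 ∘ₗ f.2)

/-- the alternating trace -/
noncomputable def Hom.str {V : Super F} (f : Hom V V) : F :=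
  LinearMap.trace F V.Ev f.1 - LinearMap.trace F V.Od f.2

/-- Smooth proper varieties over `k`, their even and odd cohomology with coefficients in `F`, and
the algebraic correspondences between them.  `corr X Y r` is the space of algebraic correspondences
of degree `r` from `X` to `Y`: the `ℚ`-linear combinations of classes of cycles of codimension
`dim X + r` on `X × Y`.  They map `Hⁱ(X)` to `H^{i+2r}(Y)`, hence they act separately on even and
odd cohomology.  They can be composed, the diagonal is the identity, and by the Lefschetz trace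
formula the alternating trace of a self-correspondence of degree `0` is rational (it is the
intersection number with the diagonal). -/
structure Correspondences (F : Type u) [Field F] where
  /-- the varieties -/
  Var : Type u
  /-- cohomology -/
  H : Var → Super F
  /-- the algebraic correspondences of degree `r` -/
  corr : ∀ (X Y : Var) (_ : ℤ), AddSubgroup (Hom (H X) (H Y))
  smul_mem : ∀ (X Y : Var) (r : ℤ) (q : ℚ), ∀ f ∈ corr X Y r, (q : F) • f ∈ corr X Y r
  id_mem : ∀ X, Hom.id (H X) ∈ corr X X 0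
  comp_mem : ∀ (X Y Z : Var) (r s : ℤ), ∀ f ∈ corr X Y r, ∀ g ∈ corr Y Z s,
    g.comp f ∈ corr X Z (r + s)
  str_rat : ∀ (X : Var), ∀ f ∈ corr X X 0, ∃ q : ℚ, f.str = (q : F)

variable (M : Correspondences F)

/-- `C⁺(X)`: the even Künneth projector of `X` is algebraic. -/
def CPlus (X : M.Var) : Prop := Hom.evenProj (M.H X) ∈ M.corr X X 0

/-- The `F`-linear combinations of the composites `g ∘ f` of algebraic correspondences
`f : X ⊢ Y` of some degree `r` and `g : Y ⊢ X` of degree `-r`, where `Y` satisfies `C⁺`. -/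
def Factor (X : M.Var) : Submodule F (Hom (M.H X) (M.H X)) :=
  Submodule.span F {u | ∃ (Y : M.Var) (r : ℤ), CPlus M Y ∧ ∃ f ∈ M.corr X Y r,
    ∃ g ∈ M.corr Y X (-r), u = g.comp f}

/-- The odd cohomology of `X` is dominated by varieties satisfying `C⁺`: it is the sum of
subspaces `S i` stable under all algebraic self-correspondences of `X` of degree `0` (for instance
the `Hⁱ(X)` with `i` odd) such that for every `i` some `w i` in `Factor M X` maps `S i`
injectively, hence bijectively, to itself. -/
def OddDominated (X : M.Var) : Prop :=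
  ∃ (n : ℕ) (S : Fin n → Submodule F (M.H X).Od), (⨆ i, S i = ⊤) ∧
    ∀ i, (∀ u ∈ M.corr X X 0, ∀ x ∈ S i, u.2 x ∈ S i) ∧
      ∃ w ∈ Factor M X, ∀ x ∈ S i, w.2 x = 0 → x = 0

/-- The even cohomology of `X` is dominated by varieties satisfying `C⁺`. -/
def EvenDominated (X : M.Var) : Prop :=
  ∃ (n : ℕ) (S : Fin n → Submodule F (M.H X).Ev), (⨆ i, S i = ⊤) ∧
    ∀ i, (∀ u ∈ M.corr X X 0, ∀ x ∈ S i, u.1 x ∈ S i) ∧
      ∃ w ∈ Factor M X, ∀ x ∈ S i, w.1 x = 0 → x = 0

/-! ### proofs -/

/-- the product of the endomorphism algebras -/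
abbrev EE (V : Super F) := Module.End F V.Ev × Module.End F V.Od

/-- the algebra of self-correspondences of degree `0` -/
def selfCorr (X : M.Var) : Subring (EE (M.H X)) where
  carrier := {u | (show Hom (M.H X) (M.H X) from u) ∈ M.corr X X 0}
  mul_mem' := by
    intro a b ha hb
    have := M.comp_mem X X X 0 0 b hb a ha
    rw [add_zero] at this
    exact this
  one_mem' := M.id_mem X
  add_mem' := fun {a b} ha hb => (M.corr X X 0).add_mem ha hb
  zero_mem' := (M.corr X X 0).zero_mem
  neg_mem' := fun {a} ha => (M.corr X X 0).neg_mem ha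

/-- its `F`-span -/
noncomputable def spanAlg (X : M.Var) : Subalgebra F (EE (M.H X)) :=
  Algebra.adjoin F (selfCorr M X : Set (EE (M.H X)))

lemma mem_spanAlg (X : M.Var) (u : EE (M.H X)) :
    u ∈ spanAlg M X ↔ u ∈ Submodule.span F (selfCorr M X : Set (EE (M.H X))) := by
  rw [spanAlg, ← Subalgebra.mem_toSubmodule, Algebra.adjoin_eq_span]
  have h2 : Submonoid.closure (selfCorr M X : Set (EE (M.H X))) =
      (selfCorr M X).toSubmonoid := Submonoid.closure_eq ((selfCorr M X).toSubmonoid)
  rw [h2]
  rfl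

lemma factor_mem (X : M.Var) {w : Hom (M.H X) (M.H X)} (hw : w ∈ Factor M X) :
    (show EE (M.H X) from w) ∈ spanAlg M X ∧
      (show EE (M.H X) from w) * par ∈ spanAlg M X := by
  let T : Submodule F (EE (M.H X)) := (Subalgebra.toSubmodule (spanAlg M X)) ⊓
      (Subalgebra.toSubmodule (spanAlg M X)).comap (LinearMap.mulRight F par)
  have key : Factor M X ≤ (show Submodule F (Hom (M.H X) (M.H X)) from T) := by
    rw [Factor, Submodule.span_le]
    rintro u ⟨Y, r, hY, f, hf, g, hg, rfl⟩
    have h1 := M.comp_mem X Y X r (-r) f hf g hg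
    rw [add_neg_cancel] at h1
    have h1' : ((g.1 ∘ₗ f.1, g.2 ∘ₗ f.2) : EE (M.H X)) ∈ spanAlg M X :=
      Algebra.subset_adjoin h1
    refine ⟨h1', ?_⟩
    -- (g ∘ (2 π⁺ - 1) ∘ f)
    have h2 := M.comp_mem Y Y X 0 (-r) _ hY g hg
    have h3 := M.comp_mem X Y X r (0 + -r) f hf _ h2
    have h4 : r + (0 + -r) = 0 := by ring
    rw [h4] at h3
    have h3' : ((g.1 ∘ₗ f.1, 0) : EE (M.H X)) ∈ spanAlg M X := by
      apply Algebra.subset_adjoin
      have e : ((g.1 ∘ₗ LinearMap.id) ∘ₗ f.1, (g.2 ∘ₗ (0 : (M.H Y).Od →ₗ[F] (M.H Y).Od)) ∘ₗ f.2) =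
          ((g.1 ∘ₗ f.1, 0) : EE (M.H X)) := by
        simp
      rw [← e]; exact h3
    show ((g.1 ∘ₗ f.1, g.2 ∘ₗ f.2) : EE (M.H X)) * par ∈ spanAlg M X
    have e : ((g.1 ∘ₗ f.1, g.2 ∘ₗ f.2) : EE (M.H X)) * par =
        (2 : F) • ((g.1 ∘ₗ f.1, 0) : EE (M.H X)) - ((g.1 ∘ₗ f.1, g.2 ∘ₗ f.2) : EE (M.H X)) := by
      ext1
      · simp only [par, Prod.fst_mul, mul_one, Prod.fst_sub, Prod.smul_fst]
        rw [two_smul]; abel
      · simp [par]
    rw [e]
    exact (spanAlg M X).sub_mem ((spanAlg M X).smul_mem h3' _) h1'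
  exact key hw

/-- stability extends to the span -/
lemma stable_span (X : M.Var) {S : Submodule F (M.H X).Od}
    (hst : ∀ u ∈ M.corr X X 0, ∀ x ∈ S, u.2 x ∈ S) :
    ∀ u ∈ spanAlg M X, ∀ x ∈ S, u.2 x ∈ S := by
  intro u hu
  rw [mem_spanAlg] at hu
  induction hu using Submodule.span_induction with
  | mem u hu => exact hst u hu
  | zero => intro x _; exact S.zero_mem
  | add a b _ _ ha hb => intro x hx; exact S.add_mem (ha x hx) (hb x hx)
  | smul c a _ ha => intro x hx; exact S.smul_mem c (ha x hx)

lemma stable_span' (X : M.Var) {S : Submodule F (M.H X).Ev}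
    (hst : ∀ u ∈ M.corr X X 0, ∀ x ∈ S, u.1 x ∈ S) :
    ∀ u ∈ spanAlg M X, ∀ x ∈ S, u.1 x ∈ S := by
  intro u hu
  rw [mem_spanAlg] at hu
  induction hu using Submodule.span_induction with
  | mem u hu => exact hst u hu
  | zero => intro x _; exact S.zero_mem
  | add a b _ _ ha hb => intro x hx; exact S.add_mem (ha x hx) (hb x hx)
  | smul c a _ ha => intro x hx; exact S.smul_mem c (ha x hx)

lemma descend [CharZero F] (X : M.Var)
    (h : ((1, 0) : EE (M.H X)) ∈ spanAlg M X) : CPlus M X := by
  rw [mem_spanAlg] at h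
  exact proj_mem_of_span (selfCorr M X) (fun q u hu => M.smul_mem X X 0 q u hu)
    (fun u hu => M.str_rat X u hu) h

/-- **Domination criterion for the sign conjecture.** -/
theorem result {F : Type u} [Field F] [CharZero F] (M : Correspondences F) (X : M.Var) :
    List.TFAE [CPlus M X, OddDominated M X, EvenDominated M X] := by
  have hid : CPlus M X → Hom.id (M.H X) ∈ Factor M X := by
    intro h
    apply Submodule.subset_span
    exact ⟨X, 0, h, _, M.id_mem X, _, by rw [neg_zero]; exact M.id_mem X, rfl⟩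
  tfae_have 1 → 2 := fun h =>
    ⟨1, fun _ => ⊤, by simp, fun i => ⟨fun _ _ _ _ => trivial, _, hid h, fun x _ hx => hx⟩⟩
  tfae_have 1 → 3 := fun h =>
    ⟨1, fun _ => ⊤, by simp, fun i => ⟨fun _ _ _ _ => trivial, _, hid h, fun x _ hx => hx⟩⟩
  tfae_have 2 → 1 := by
    rintro ⟨n, H, hsup, hH⟩
    choose hst w hw hinj using hH
    exact descend M X (proj_of_cover_odd two_ne_zero (spanAlg M X) H hsup
      (fun i => stable_span M X (hst i)) w (fun i => (factor_mem M X (hw i)).1)
      (fun i => (factor_mem M X (hw i)).2) hinj)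
  tfae_have 3 → 1 := by
    rintro ⟨n, H, hsup, hH⟩
    choose hst w hw hinj using hH
    exact descend M X (proj_of_cover_even two_ne_zero (spanAlg M X) H hsup
      (fun i => stable_span' M X (hst i)) w (fun i => (factor_mem M X (hw i)).1)
      (fun i => (factor_mem M X (hw i)).2) hinj)
  tfae_finish

end Pool.Agent.Results.MP_56c18a_ag.Domination
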