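import Pool.Agent.Helper17.CW.Final

/-!
# Commutator width and the lower central series of the derived group

`gam G' n` is the `(n+1)`-st term of the lower central series of `G'`, `der N j` is the `j`-th
derived group of `N`, and `SmallCoinv B r` says that the elementary abelian `2`-group
`B / B² [B, G]` has rank at most `r`.
-/

namespace Pool.Agent.Results.MP_178833_al.LowerCentralWidth

open Pool.Agent.Helper17.CW

universe u

/-- **Main result.** Let `G` be a group with `k` generators, `n ≥ 0`, and let `N = γ_(n+1)(G')` be a
term of the lower central series of the derived group `G'`. Suppose that `N^(d) = 1` and that for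
`1 ≤ j < d` the group `N^(j)` is generated by `r j` of its elements, the squares of its elements and
`[N^(j), G]`. Then every element of `G'` is a product of
`k ^ 2 + 2 k + ∑_{1 ≤ j < d} (3 k + r j)` commutators, a bound which does not depend on `n`. In
particular (`d = 1`) if `γ_(n+1)(G')` is abelian, then `k ^ 2 + 2 k` commutators suffice. -/
theorem result (k n d : ℕ) (r : ℕ → ℕ) {G : Type u} [Group G] (x : Fin k → G)
    (hx : Subgroup.closure (Set.range x) = ⊤) (hd : der (gam (commutator G) n) d = ⊥)
    (hr : ∀ j, 1 ≤ j → j < d → SmallCoinv (der (gam (commutator G) n) j) (r j))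
    (g : G) (hg : g ∈ commutator G) :
    ∃ a b : Fin (k ^ 2 + 2 * k + ∑ j ∈ Finset.Ico 1 d, (3 * k + r j)) → G,
      g = (List.ofFn fun i => a i * b i * (a i)⁻¹ * (b i)⁻¹).prod := by
  have hgen : Subgroup.closure {y | y ∈ List.ofFn x} = ⊤ := by
    have : {y | y ∈ List.ofFn x} = Set.range x := by
      ext y; simp
    rw [this, hx]
  have hlen : (List.ofFn x).length = k := by simp
  have h1 : commutator G = derivedSeries G 1 := (derivedSeries_one (G := G)).symm
  rw [h1] at hd hr hg
  have main : Pool.Agent.Helper26.CW.IsProdComm
      (k ^ 2 + 2 * k + ∑ j ∈ Finset.Ico 1 d, (3 * k + r j)) g := by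
    rcases Nat.eq_zero_or_pos d with h0 | h0
    · subst h0
      have hd1 : der (gam (derivedSeries G 1) n) (0 + 1) = ⊥ := by
        rw [der_succ, hd, eq_bot_iff]
        exact Subgroup.commutator_le_right _ _
      have h := width_main k n 0 r G (List.ofFn x) hlen hgen hd1
        (fun j hj hj' => absurd hj' (by omega)) g hg
      simpa using h
    · obtain ⟨e, rfl⟩ : ∃ e, d = e + 1 := ⟨d - 1, by omega⟩
      exact width_main k n e r G (List.ofFn x) hlen hgen hd hr g hg
  exact main.exists_fin

end Pool.Agent.Results.MP_178833_al.LowerCentralWidth
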