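import Pool.Agent.Helper17.Sign.Numeric
import Pool.Agent.Helper17.Sign.Stable

namespace Pool.Agent.Results.MP_56c18a_ag.NumericalCriterion

open Polynomial Module Pool.Agent.Helper17.Sign

/-- The algebraic self-correspondences of degree `0` of a variety `X`, acting on the even part `Vp`
and the odd part `Vm` of its cohomology with coefficients in `F`.  They form a `ℚ`-algebra, and by
the Lefschetz trace formula their alternating traces are rational (they are the intersection
numbers with the diagonal). -/
structure CorrAlgebra (F Vp Vm : Type*) [Field F] [AddCommGroup Vp] [Module F Vp]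
    [AddCommGroup Vm] [Module F Vm] where
  /-- the algebraic classes -/
  carrier : Subring (Module.End F Vp × Module.End F Vm)
  smul_mem : ∀ (q : ℚ) (u : Module.End F Vp × Module.End F Vm), u ∈ carrier → (q : F) • u ∈ carrier
  trace_rat : ∀ u ∈ carrier, ∃ q : ℚ, LinearMap.trace F Vp u.1 - LinearMap.trace F Vm u.2 = (q : F)

variable {F Vp Vm : Type*} [Field F] [CharZero F] [AddCommGroup Vp] [Module F Vp]
  [FiniteDimensional F Vp] [AddCommGroup Vm] [Module F Vm] [FiniteDimensional F Vm]

/-- `C⁺`: the even Künneth projector, that is the identity on `Vp` and zero on `Vm`, is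
algebraic. -/
def CorrAlgebra.CPlus (A : CorrAlgebra F Vp Vm) : Prop :=
  ((1 : Module.End F Vp), (0 : Module.End F Vm)) ∈ A.carrier

/-- `s n` (`n ≥ 1`) is the alternating trace of the `n`-th power of `u`: the intersection number
of `uⁿ` with the diagonal. -/
def IsTraceSeq (u : Module.End F Vp × Module.End F Vm) (s : ℕ → ℚ) : Prop :=
  ∀ n, 1 ≤ n → LinearMap.trace F Vp (u.1 ^ n) - LinearMap.trace F Vm (u.2 ^ n) = (s n : F)

/-- The `F`-span of the algebraic classes, as a subalgebra. -/
noncomputable def spanAlg (A : CorrAlgebra F Vp Vm) :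
    Subalgebra F (Module.End F Vp × Module.End F Vm) :=
  Algebra.adjoin F (A.carrier : Set (Module.End F Vp × Module.End F Vm))

omit [CharZero F] [FiniteDimensional F Vp] [FiniteDimensional F Vm] in
lemma mem_spanAlg (A : CorrAlgebra F Vp Vm) (u : Module.End F Vp × Module.End F Vm) :
    u ∈ spanAlg A ↔
      u ∈ Submodule.span F (A.carrier : Set (Module.End F Vp × Module.End F Vm)) := by
  rw [spanAlg, ← Subalgebra.mem_toSubmodule, Algebra.adjoin_eq_span]
  have h := Submonoid.closure_eq (A.carrier.toSubmonoid)
  have h2 : Submonoid.closure (A.carrier : Set (Module.End F Vp × Module.End F Vm)) =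
      A.carrier.toSubmonoid := h
  rw [h2]
  rfl

/-- **Numerical criterion for the sign conjecture.**  The following are equivalent: `C⁺`; the even
projector is an `F`-linear combination of algebraic classes; every subspace of the cohomology that
is stable under all algebraic correspondences is graded; some algebraic correspondence has coprime
characteristic polynomials on even and odd cohomology; the zeta function of some algebraic
correspondence has, in lowest terms, total degree the total Betti number. -/
theorem result (A : CorrAlgebra F Vp Vm) : List.TFAE [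
    A.CPlus,
    ((1 : Module.End F Vp), (0 : Module.End F Vm)) ∈
      Submodule.span F (A.carrier : Set (Module.End F Vp × Module.End F Vm)),
    ∀ Γ : Submodule F (Vp × Vm), (∀ u ∈ A.carrier, ∀ x ∈ Γ, (u.1 x.1, u.2 x.2) ∈ Γ) →
      ∀ x ∈ Γ, (x.1, (0 : Vm)) ∈ Γ,
    ∃ u ∈ A.carrier, IsCoprime u.1.charpoly u.2.charpoly,
    ∃ u ∈ A.carrier, ∃ s : ℕ → ℚ, IsTraceSeq u s ∧ ∃ P Q : ℚ[X], IsZeta s P Q ∧
      P.natDegree + Q.natDegree = finrank F Vp + finrank F Vm] := by
  have hpow : ∀ u ∈ A.carrier, ∀ n : ℕ, ∃ q : ℚ,
      LinearMap.trace F Vp (u.1 ^ n) - LinearMap.trace F Vm (u.2 ^ n) = (q : F) := by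
    intro u hu n
    have := A.trace_rat (u ^ n) (pow_mem hu n)
    simpa using this
  tfae_have 1 → 3 := by
    intro h Γ hΓ x hx
    have := hΓ _ h x hx
    simpa using this
  tfae_have 3 → 2 := by
    intro h
    let R := spanAlg A
    let ρp : R →ₐ[F] Module.End F Vp := (AlgHom.fst F _ _).comp R.val
    let ρm : R →ₐ[F] Module.End F Vm := (AlgHom.snd F _ _).comp R.val
    obtain ⟨r, hr1, hr2⟩ := exists_proj ρp ρm (fun Γ hΓ => h Γ (fun u hu x hx => by
      have huR : u ∈ spanAlg A := Algebra.subset_adjoin hu
      exact hΓ ⟨u, huR⟩ x hx))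
    rw [← mem_spanAlg]
    have : ((1 : Module.End F Vp), (0 : Module.End F Vm)) = (r : Module.End F Vp × Module.End F Vm) :=
      Prod.ext hr1.symm hr2.symm
    rw [this]
    exact r.2
  tfae_have 2 → 4 := by
    intro h
    rw [Submodule.mem_span_iff_exists_finset_subset] at h
    obtain ⟨f, t, ht, -, hsum⟩ := h
    let e := t.equivFin
    have hs : ((1 : Module.End F Vp), (0 : Module.End F Vm)) =
        ∑ j, f (e.symm j) • ((e.symm j : Module.End F Vp × Module.End F Vm)) := by
      rw [← hsum, ← Finset.sum_coe_sort t]
      exact (Equiv.sum_comp e.symm fun a : t => f a • (a : Module.End F Vp × Module.End F Vm)).symm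
    have h1 : ∑ j, f (e.symm j) • ((e.symm j : Module.End F Vp × Module.End F Vm)).1 = 1 := by
      have := congrArg Prod.fst hs
      rw [Prod.fst_sum] at this
      simpa using this.symm
    have h2 : ∑ j, f (e.symm j) • ((e.symm j : Module.End F Vp × Module.End F Vm)).2 = 0 := by
      have := congrArg Prod.snd hs
      rw [Prod.snd_sum] at this
      simpa using this.symm
    obtain ⟨x, hx⟩ := exists_rational_combination
      (fun j => ((e.symm j : Module.End F Vp × Module.End F Vm)).1)
      (fun j => ((e.symm j : Module.End F Vp × Module.End F Vm)).2) (fun j => f (e.symm j)) (by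
        rw [h1, h2]
        have : (0 : Module.End F Vm).charpoly = X ^ finrank F Vm := by
          rw [LinearMap.charpoly_eq_X_pow_iff]
          intro m; exact ⟨1, by simp⟩
        rw [this, map_pow, aeval_X, one_pow]
        exact isUnit_one)
    refine ⟨∑ j, (x j : F) • ((e.symm j : Module.End F Vp × Module.End F Vm)), ?_, ?_⟩
    · exact sum_mem fun j _ => A.smul_mem _ _ (ht (e.symm j).2)
    · have := coprime_of_isUnit _ _ hx
      rw [Prod.fst_sum, Prod.snd_sum]
      simpa using this
  tfae_have 4 → 1 := by
    rintro ⟨u, hu, hc⟩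
    obtain ⟨p, hp1, hp2⟩ := exists_polynomial u.1 u.2 hc (fun n _ => hpow u hu n)
    have hmem : ∀ q : ℚ[X], (aeval u.1 (q.map (algebraMap ℚ F)),
        aeval u.2 (q.map (algebraMap ℚ F))) ∈ A.carrier := by
      intro q
      have heq : (aeval u.1 (q.map (algebraMap ℚ F)), aeval u.2 (q.map (algebraMap ℚ F))) =
          ∑ i ∈ Finset.range (q.natDegree + 1), ((q.coeff i : ℚ) : F) • u ^ i := by
        rw [Polynomial.aeval_eq_sum_range' (n := q.natDegree + 1)
            (by rw [Polynomial.natDegree_map]; omega),
          Polynomial.aeval_eq_sum_range' (n := q.natDegree + 1)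
            (by rw [Polynomial.natDegree_map]; omega)]
        ext1
        · rw [Prod.fst_sum]; simp
        · rw [Prod.snd_sum]; simp
      rw [heq]
      exact sum_mem fun i _ => A.smul_mem _ _ (pow_mem hu i)
    have := hmem p
    rw [hp1, hp2] at this
    exact this
  tfae_have 1 → 5 := by
    intro h
    have hu : ((2 : F) • (1 : Module.End F Vp), (1 : Module.End F Vm)) ∈ A.carrier := by
      have h1 := A.carrier.add_mem h A.carrier.one_mem
      have e : ((1 : Module.End F Vp), (0 : Module.End F Vm)) + 1 =
          ((2 : F) • (1 : Module.End F Vp), (1 : Module.End F Vm)) := by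
        ext1
        · simp only [Prod.fst_add, Prod.fst_one]; rw [two_smul]
        · simp
      rwa [e] at h1
    refine ⟨_, hu, fun n => 2 ^ n * finrank F Vp - finrank F Vm, ?_, ?_⟩
    · intro n _
      simp only [_root_.smul_pow, one_pow, map_smul, LinearMap.trace_one, smul_eq_mul]
      push_cast; ring
    · refine ⟨Ppol (Multiset.replicate (finrank F Vp) (2 : ℚ)),
        Ppol (Multiset.replicate (finrank F Vm) (1 : ℚ)), ⟨coeff_zero_Ppol _, coeff_zero_Ppol _,
          ?_, ?_⟩, ?_⟩
      · simp only [Ppol, Multiset.map_replicate, Multiset.prod_replicate]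
        apply IsCoprime.pow
        refine ⟨-1, 2, ?_⟩
        have : (C (2:ℚ)) = 2 := rfl
        rw [this, C_1]; ring
      · have h1 := logderiv (Multiset.replicate (finrank F Vp) (2 : ℚ))
        have h2 := logderiv (Multiset.replicate (finrank F Vm) (1 : ℚ))
        have hS : PowerSeries.mk (fun n : ℕ => if n = 0 then (0:ℚ) else
            2 ^ n * finrank F Vp - finrank F Vm) =
            Tser (Multiset.replicate (finrank F Vp) (2 : ℚ)) -
              Tser (Multiset.replicate (finrank F Vm) (1 : ℚ)) := by
          ext n
          simp only [Tser, map_sub, PowerSeries.coeff_mk, Multiset.map_replicate,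
            Multiset.sum_replicate, one_pow]
          split_ifs
          · simp
          · simp [mul_comm]
        rw [hS]
        rw [Polynomial.coe_mul, Polynomial.coe_sub, Polynomial.coe_mul, Polynomial.coe_mul,
          ← PowerSeries.derivative_coe, ← PowerSeries.derivative_coe, Polynomial.coe_X, coe_Ppol,
          coe_Ppol]
        linear_combination Pser (Multiset.replicate (finrank F Vp) (2 : ℚ)) * h2 -
          Pser (Multiset.replicate (finrank F Vm) (1 : ℚ)) * h1
      · have hd : ∀ (n : ℕ) (a : ℚ), a ≠ 0 → (Ppol (Multiset.replicate n a)).natDegree = n := by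
          intro n a ha
          simp only [Ppol, Multiset.map_replicate, Multiset.prod_replicate]
          have : (1 - C a * X : ℚ[X]) = C (-a) * X + C 1 := by simp; ring
          rw [this, Polynomial.natDegree_pow, Polynomial.natDegree_linear (neg_ne_zero.mpr ha),
            mul_one]
        rw [hd _ _ two_ne_zero, hd _ _ one_ne_zero]
  tfae_have 5 → 4 := by
    rintro ⟨u, hu, s, hs, P, Q, hz, hd⟩
    exact ⟨u, hu, coprime_of_zeta u.1 u.2 s hs P Q hz hd⟩
  tfae_finish

end Pool.Agent.Results.MP_56c18a_ag.NumericalCriterion
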