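import Pool.Agent.Helper17.Sign.SchurPow

namespace Pool.Agent.Results.MP_56c18a_ag.SchurFunctor

open Module TensorProduct Pool.Agent.Helper17.Sign

/-- The cohomology of `Xⁿ`: by the Künneth formula, the `n`-th tensor power of the total cohomology
`V = H*(X)`, with coefficients in `F`. -/
abbrev CohPow (F V : Type*) [Field F] [AddCommGroup V] [Module F V] (n : ℕ) : Type _ :=
  ⨂[F] _ : Fin n, V

variable {F V : Type*} [Field F] [AddCommGroup V] [Module F V]

/-- The tensor product of endomorphisms of `H*(X)`, acting on `H*(Xⁿ)`. -/
noncomputable def tensor {n : ℕ} (u : Fin n → Module.End F V) : Module.End F (CohPow F V n) :=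
  PiTensorProduct.map u

/-- An endomorphism of `H*(X)` acting on the `i`-th factor of `H*(Xⁿ)`. -/
noncomputable def onFactor {n : ℕ} (i : Fin n) (v : Module.End F V) :
    Module.End F (CohPow F V n) :=
  tensor (Function.update (fun _ => 1) i v)

/-- The projector on the `1`-eigenspace of an involution. -/
def plusPart {F R : Type*} [Field F] [Ring R] [Algebra F R] (ε : R) : R := (2⁻¹ : F) • (1 + ε)

/-- The projector on the `-1`-eigenspace of an involution. -/
def minusPart {F R : Type*} [Field F] [Ring R] [Algebra F R] (ε : R) : R := (2⁻¹ : F) • (1 - ε)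

/-- The supertrace with respect to the parity operator `ε` (`1` on the even part, `-1` on the odd
part), that is the trace on the even part minus the trace on the odd part. -/
noncomputable def str (ε x : Module.End F V) : F := LinearMap.trace F V (ε * x)

/-- `x` is the partial supertrace of `u` to the `i`-th factor: `str (x v) = str (u vᵢ)` for all
parity preserving `v`, where `vᵢ` is `v` acting on the `i`-th factor.  For an algebraic
correspondence `u` it is the direct image to the `i`-th factor of the intersection of `u` with the
diagonals of the other factors. -/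
def IsPartialTrace (ε : Module.End F V) {n : ℕ} (i : Fin n) (u : Module.End F (CohPow F V n))
    (x : Module.End F V) : Prop :=
  ∀ v : Module.End F V, Commute v ε → str ε (x * v) = str (tensor fun _ => ε) (u * onFactor i v)

/-- Stability under multiplication by rational numbers. -/
def RatStable (F : Type*) {R : Type*} [Field F] [Ring R] [Module F R] (S : Subring R) : Prop :=
  ∀ (q : ℚ), ∀ u ∈ S, (q : F) • u ∈ S

/-- The algebraic self-correspondences of degree `0` of `X` and of its powers, acting on
cohomology; `ε` is the parity operator of `H*(X)`.  They form `ℚ`-algebras; those of `X` preserve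
parity; tensor products of algebraic correspondences of `X` are algebraic correspondences of `Xⁿ`;
and the partial supertraces of algebraic correspondences of `Xⁿ` are algebraic correspondences
of `X`. -/
structure CorrPowers (ε : Module.End F V) where
  /-- algebraic self-correspondences of `X` -/
  alg : Subring (Module.End F V)
  /-- algebraic self-correspondences of `Xⁿ` -/
  algPow : ∀ n, Subring (Module.End F (CohPow F V n))
  rat : RatStable F alg
  ratPow : ∀ n, RatStable F (algPow n)
  even : ∀ u ∈ alg, Commute u ε
  tensor_mem : ∀ (n : ℕ) (u : Fin n → Module.End F V), (∀ i, u i ∈ alg) → tensor u ∈ algPow n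
  contract : ∀ (n : ℕ), ∀ u ∈ algPow n, ∀ i : Fin n, ∃ x ∈ alg, IsPartialTrace ε i u x

/-- `C⁺(X)`: the even Künneth projector is algebraic. -/
def CorrPowers.CPlus {ε : Module.End F V} (A : CorrPowers ε) : Prop :=
  plusPart (F := F) ε ∈ A.alg

/-- `C⁺` for the motive cut out of `Xⁿ` by the idempotent `e`: the even part of `e` is
algebraic. -/
def CorrPowers.CPlusPiece {ε : Module.End F V} (A : CorrPowers ε) {n : ℕ}
    (e : Module.End F (CohPow F V n)) : Prop :=
  plusPart (F := F) (tensor fun _ => ε) * e ∈ A.algPow n

/-- An operator on `H*(Xⁿ)` is natural if it commutes with the diagonal (Leibniz) action of the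
parity preserving endomorphisms of `H*(X)`. -/
def Natural (ε : Module.End F V) {n : ℕ} (e : Module.End F (CohPow F V n)) : Prop :=
  ∀ v : Module.End F V, Commute v ε → Commute e (∑ i, onFactor i v)

/-- The exchange of the tensor factors `i` and `j` of `H*(Xⁿ)`, without sign. -/
noncomputable def swapFactors (F V : Type*) [Field F] [AddCommGroup V] [Module F V] {n : ℕ}
    (i j : Fin n) : Module.End F (CohPow F V n) :=
  (PiTensorProduct.reindex F (fun _ : Fin n => V) (Equiv.swap i j)).toLinearMap

/-- The action on `H*(Xⁿ)` of the exchange of two adjacent factors `i` and `j` of `Xⁿ`: by the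
Koszul sign rule, `x ⊗ y` goes to `y ⊗ x` with a sign `-1` if `x` and `y` are both odd. -/
noncomputable def exchange (ε : Module.End F V) {n : ℕ} (i j : Fin n) :
    Module.End F (CohPow F V n) :=
  swapFactors F V i j * (1 - (2 : F) • onFactor i (minusPart (F := F) ε) *
    onFactor j (minusPart (F := F) ε))

/-- The `F`-algebra generated by the exchanges of adjacent factors, that is the image of the group
algebra of the symmetric group.  It contains the idempotents which define the Schur functors, in
particular the symmetric and the alternating powers. -/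
noncomputable def permAlg (ε : Module.End F V) (n : ℕ) :
    Subalgebra F (Module.End F (CohPow F V n)) :=
  Algebra.adjoin F {σ | ∃ i j : Fin n, (i : ℕ) + 1 = j ∧ σ = exchange ε i j}

lemma natural_permAlg {ε : Module.End F V} {n : ℕ} {e : Module.End F (CohPow F V n)}
    (he : e ∈ permAlg ε n) : Natural ε e := by
  intro v hv
  have h1 : permAlg ε n ≤ Subalgebra.centralizer F {∑ i : Fin n, onFactor i v} := by
    apply Algebra.adjoin_le
    rintro σ ⟨i, j, -, rfl⟩
    rw [SetLike.mem_coe, Subalgebra.mem_centralizer_iff]
    rintro g hg
    rw [Set.mem_singleton_iff] at hg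
    subst hg
    exact (Pow.commute_exchange i j hv).symm
  have h2 := h1 he
  rw [Subalgebra.mem_centralizer_iff] at h2
  exact (h2 _ rfl).symm

/-- **The Schur functor criterion for the sign conjecture.**  Let `ε` be the parity operator of
`V = H*(X)` and let `e` be a nonzero algebraic idempotent on `Xⁿ`, `n ≥ 1`, which lies in the
algebra generated by the permutations of the factors, or which is merely natural.  Then `C⁺` holds
for the motive `(Xⁿ, e)` if and only if it holds for `X`. -/
theorem result {F V : Type*} [Field F] [CharZero F] [AddCommGroup V] [Module F V]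
    [FiniteDimensional F V] {ε : Module.End F V} (hε : ε * ε = 1) (A : CorrPowers ε) {n : ℕ}
    (hn : 1 ≤ n) (e : Module.End F (CohPow F V n)) (hA : e ∈ A.algPow n) (hidem : e * e = e)
    (h0 : e ≠ 0) (hnat : e ∈ permAlg ε n ∨ Natural ε e) : A.CPlusPiece e ↔ A.CPlus := by
  have hnat' : Natural ε e := hnat.elim natural_permAlg id
  have h2 : (2 : F) ≠ 0 := two_ne_zero
  set εn : Module.End F (CohPow F V n) := tensor fun _ => ε with hεn
  have hpp : εn * εn = 1 := by
    have h3 := Pow.tensor_mul (fun _ : Fin n => ε) (fun _ => ε)
    simp only [hε] at h3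
    rw [Pow.tensor_one] at h3
    exact h3.symm
  constructor
  · intro h
    have hu : εn * e ∈ A.algPow n := by
      have h3 := A.ratPow n 2 _ h
      have h4 := (A.algPow n).sub_mem h3 hA
      have e1 : (((2 : ℚ)) : F) • (plusPart (F := F) εn * e) - e = εn * e := by
        rw [plusPart, smul_mul_assoc, smul_smul]
        push_cast
        rw [mul_inv_cancel₀ h2, one_smul, add_mul, one_mul]
        abel
      rwa [e1] at h4
    refine schur_core A.alg A.rat ε hε A.even (by omega)
      (fun i => Pow.onFactorHom i) (fun i j hij a b => Pow.onFactor_comm hij a b) e hidem h0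
      (fun v hv => hnat' v hv) ?_
    intro i
    obtain ⟨x, hx, hx'⟩ := A.contract n _ hu i
    refine ⟨x, hx, fun v hv => ?_⟩
    have h3 := hx' v hv
    unfold str at h3
    rw [← hεn] at h3
    rw [mul_assoc, h3, mul_assoc εn e, ← mul_assoc εn, hpp, one_mul]
    rfl
  · intro h
    have h3 : ε ∈ A.alg := by
      have h4 := A.alg.sub_mem (A.rat 2 _ h) A.alg.one_mem
      have e1 : (((2 : ℚ)) : F) • plusPart (F := F) ε - 1 = ε := by
        rw [plusPart, smul_smul]
        push_cast
        rw [mul_inv_cancel₀ h2, one_smul]
        abel
      rwa [e1] at h4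
    have h4 : εn ∈ A.algPow n := A.tensor_mem n _ fun _ => h3
    have h5 : 1 + εn ∈ A.algPow n := (A.algPow n).add_mem (A.algPow n).one_mem h4
    have h6 := A.ratPow n 2⁻¹ _ ((A.algPow n).mul_mem h5 hA)
    have e1 : (((2⁻¹ : ℚ)) : F) • ((1 + εn) * e) = plusPart (F := F) εn * e := by
      rw [plusPart, smul_mul_assoc]
      push_cast; rfl
    rwa [e1] at h6

end Pool.Agent.Results.MP_56c18a_ag.SchurFunctor
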